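import Pool.Agent.Lib_MP_ce2681_lc.HardQ2
import Pool.Agent.Lib_MP_ce2681_lc.Memb

/-!
# Foremost coverage of periodic temporal trees: both questions
-/

namespace Pool.Agent.Results.MP_ce2681_lc.PeriodicTreesResolved

open Turing Pool.Agent.Bx81 Pool.Agent.Dm81

/-- The encoding is injective. -/
theorem encode_inj {p p' : ℕ} {I : PTree p} {I' : PTree p'} {t t' : ℕ}
    (h : I.encode ++ (Nat.bits t).map some = I'.encode ++ (Nat.bits t').map some) :
    ∃ e : p = p', e ▸ I = I' ∧ t = t' := by
  have h1 := congrArg seg h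
  rw [seg_encode', seg_encode', List.append_assoc, List.append_assoc, List.singleton_append,
    List.singleton_append] at h1
  have hn : I.n = I'.n := by rw [← head_mrows I, h1, head_mrows]
  have hn0 : 0 < I.n := lt_of_le_of_lt (Nat.zero_le _) I.start.2
  have hp : p = p' := by
    have h2 := congrArg List.length h1
    simp only [List.length_append, mrows_length, List.length_cons, List.length_nil] at h2
    rw [← hn] at h2
    exact Nat.eq_of_mul_eq_mul_right hn0 (by omega)
  subst hp
  refine ⟨rfl, ?_, ?_⟩
  · show I = I'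
    obtain ⟨n, S, s, hp, hT⟩ := I
    obtain ⟨n', S', s', hp', hT'⟩ := I'
    simp only at hn
    subst hn
    have hS : S = S' := by
      funext i
      ext u v
      have e1 := ent_mrows (⟨n, S, s, hp, hT⟩ : PTree p) i u v
        (srow (⟨n, S, s, hp, hT⟩ : PTree p) :: [Nat.bits t])
      have e2 := ent_mrows (⟨n, S', s', hp', hT'⟩ : PTree p) i u v
        (srow (⟨n, S', s', hp', hT'⟩ : PTree p) :: [Nat.bits t'])
      rw [h1] at e1
      exact e1.symm.trans e2
    have hs : s = s' := by
      have e1 := ent_srow (⟨n, S, s, hp, hT⟩ : PTree p) s [Nat.bits t]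
      have e2 := ent_srow (⟨n, S', s', hp', hT'⟩ : PTree p) s [Nat.bits t']
      rw [h1] at e1
      exact e2.1 (e1.2 rfl)
    subst hS
    subst hs
    rfl
  · have h2 := congrArg List.getLast? h1
    have h3 : Nat.bits t = Nat.bits t' := by simpa using h2
    have h3 := congrArg bval h3
    rwa [bval_bits, bval_bits] at h3

/-- **Question 1, yes; Question 2, no unless `P = NP`.**

1. For every fixed period `p ≥ 1` the minimum cover time on all trees is computed by a Turing
machine in time polynomial in the size of the instance.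

2. With the period part of the input, the decision problem on trees of maximum degree at most `Δ`
(all trees, if `Δ = ⊤`) is `NP`-complete, for every `Δ ≥ 3`. -/
theorem result :
    (∀ p : ℕ, 0 < p → Nonempty (TM2ComputableInPolyTime (fun I : PTree p => I.encode)
      (fun k : ℕ => Nat.bits k) (fun I => I.coverTime))) ∧
    (∀ Δ : ℕ∞, 3 ≤ Δ → InNP (DMVP Δ) ∧
      ∀ (Γ : Type) [Fintype Γ] (L : Set (List Γ)), InNP L → Reduces L (DMVP Δ)) := by
  refine ⟨fun p hp => ?_, fun Δ hΔ => ⟨mem_np Δ, fun Γ _ L hL => ?_⟩⟩
  · have : NeZero p := ⟨by omega⟩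
    exact q1
  · obtain ⟨f, hf, h⟩ := hard_strong L hL
    refine ⟨f, hf, fun x => ?_⟩
    obtain ⟨p, I, t, h1, h2, h3⟩ := h x
    rw [h3]
    constructor
    · intro h4
      exact ⟨p, I, t, h1, fun v => (h2 v).trans hΔ, h4⟩
    · rintro ⟨p', I', t', h4, _, h5⟩
      rw [h1] at h4
      obtain ⟨rfl, h6, rfl⟩ := encode_inj h4
      simp only at h6
      subst h6
      exact h5

end Pool.Agent.Results.MP_ce2681_lc.PeriodicTreesResolved
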